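import Pool.Agent.WAP.StmtsC

/-! Squad WAP, row CTB: finitely many points of order dividing `a`. -/

set_option autoImplicit false

namespace Pool.Agent.WAP.H24

open Pool.Agent.WAP Pool.Agent.WAP.C Classical WeierstrassCurve WeierstrassCurve.Affine

/-- the parameter of a point near the origin does not vanish -/
theorem cz_ne_aux {F : Type} [NormedField F] (P : Pt (1 : F)) (h1 : 1 < ‖cX P‖) : cz P ≠ 0 := by
  rcases P with _ | ⟨X, Y, h⟩
  · exfalso
    have h2 : cX (Point.zero : Pt (1 : F)) = 0 := rfl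
    rw [h2, norm_zero] at h1
    linarith
  · have hX : 1 < ‖X‖ := h1
    have heq : Y ^ 2 = X ^ 3 - 1 ^ 2 * X := by
      rw [Affine.nonsingular_iff, W_equation] at h
      exact h.1
    have hX0 : X ≠ 0 := by
      intro h0
      rw [h0, norm_zero] at hX
      linarith
    have hY0 : Y ≠ 0 := by
      intro h0
      rw [h0] at heq
      have h3 : X * (X ^ 2 - 1) = 0 := by linear_combination -heq
      rcases mul_eq_zero.1 h3 with h4 | h4
      · exact hX0 h4
      · have h5 : X ^ 2 = 1 := by linear_combination h4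
        have h6 : ‖X‖ ^ 2 = 1 := by rw [← norm_pow, h5, norm_one]
        nlinarith
    show X / Y ≠ 0
    exact div_ne_zero hX0 hY0

/-- row CTB -/
theorem ctb (hcli : CliStmt) (hcph : CphStmt) (hcxf : CxfStmt) : CtbStmt := by
  intro F _ _ hF a ha
  by_contra hinf
  obtain ⟨C, r1, hC, hr1, hcl⟩ := hcli F hF a
  obtain ⟨A, hA⟩ : ∃ A : ℝ, A = ‖algebraMap GaussianInt F a‖ := ⟨_, rfl⟩
  have hA0 : 0 < A := by
    have h1 := (hcxf F hF).1.2 a
    have h2 : 0 < (a.norm : ℝ) := by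
      have h3 : 0 < a.norm := GaussianInt.norm_pos.2 ha
      exact_mod_cast h3
    rw [← h1, ← hA] at h2
    have h3 : 0 ≤ A := by rw [hA]; exact norm_nonneg _
    rcases h3.lt_or_eq with h4 | h4
    · exact h4
    · rw [← h4] at h2
      norm_num at h2
  let φ : Pt (1 : F) →+ Pt (1 : F) :=
    AddMonoidHom.mk' (fun P => sm a P) (fun P Q => gsm_add _ a P Q)
  have hS : ((φ.ker : AddSubgroup (Pt (1 : F))) : Set (Pt (1 : F))).Infinite := by
    have h1 : ((φ.ker : AddSubgroup (Pt (1 : F))) : Set (Pt (1 : F))) = {P | sm a P = 0} := by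
      ext P
      exact AddMonoidHom.mem_ker
    rw [h1]
    exact hinf
  obtain ⟨r, hr⟩ : ∃ r : ℝ, r = min r1 (min 1 (A / (2 * C))) := ⟨_, rfl⟩
  have hr0 : 0 < r := by
    rw [hr]
    exact lt_min hr1 (lt_min one_pos (by positivity))
  have hrr1 : r ≤ r1 := by rw [hr]; exact min_le_left _ _
  have hr1' : r ≤ 1 := by rw [hr]; exact le_trans (min_le_right _ _) (min_le_left _ _)
  have hrA : r ≤ A / (2 * C) := by
    rw [hr]
    exact le_trans (min_le_right _ _) (min_le_right _ _)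
  obtain ⟨P, hPS, hP0, hPn⟩ := hcph F hF φ.ker hS r hr0
  have hPz : sm a P = 0 := AddMonoidHom.mem_ker.1 hPS
  rcases hPn with h0 | ⟨hP1, hP2⟩
  · exact hP0 h0
  · have hz : cz P ≠ 0 := cz_ne_aux P hP1
    have hz0 : 0 < ‖cz P‖ := norm_pos_iff.2 hz
    have h1 := (hcl ‖cz P‖ hz0 (le_trans hP2 hrr1) P (Or.inr ⟨hP1, le_rfl⟩)).2
    have hcz0 : cz (0 : Pt (1 : F)) = 0 := by
      show (0 : F) / 0 = 0
      simp
    rw [hPz, hcz0, zero_sub, norm_neg, norm_mul, ← hA] at h1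
    have h2 : A ≤ C * ‖cz P‖ ^ 2 := by
      have h3 : ‖cz P‖ * A ≤ ‖cz P‖ * (C * ‖cz P‖ ^ 2) := by
        calc ‖cz P‖ * A = A * ‖cz P‖ := mul_comm _ _
          _ ≤ C * ‖cz P‖ ^ 3 := h1
          _ = ‖cz P‖ * (C * ‖cz P‖ ^ 2) := by ring
      exact le_of_mul_le_mul_left h3 hz0
    have h4 : ‖cz P‖ ^ 2 ≤ r := by
      calc ‖cz P‖ ^ 2 = ‖cz P‖ * ‖cz P‖ := by ring
        _ ≤ r * 1 := mul_le_mul hP2 (le_trans hP2 hr1') hz0.le hr0.le
        _ = r := mul_one _
    have h5 : C * ‖cz P‖ ^ 2 ≤ C * (A / (2 * C)) :=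
      mul_le_mul_of_nonneg_left (le_trans h4 hrA) hC.le
    have h6 : C * (A / (2 * C)) = A / 2 := by
      field_simp
    linarith

end Pool.Agent.WAP.H24
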